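import Mathlib
import Pool.Agent.SD5.Main

/-!
# Sidon sets in `ℤ_3^r` have at most `3^(r/2)` elements
-/

set_option autoImplicit false

namespace Pool.Agent.Results.MP_255f40_co.ExponentThree

/-- `A` is a Sidon set: all sums `a + b` with `a, b ∈ A` (`a = b` allowed) are different, up to the
order of the terms. -/
def IsSidon {G : Type} [AddCommGroup G] (A : Finset G) : Prop :=
  ∀ a ∈ A, ∀ b ∈ A, ∀ c ∈ A, ∀ d ∈ A, a + b = c + d → (a = c ∧ b = d) ∨ (a = d ∧ b = c)

/-- For `r ≥ 2` every Sidon set in `ℤ_3^r` has at most `3^(r/2)` elements. -/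
theorem result (r : ℕ) (hr : 2 ≤ r) (A : Finset (Fin r → ZMod 3)) (hA : IsSidon A) :
    A.card ^ 2 ≤ 3 ^ r :=
  Pool.Agent.SD5.sidon_three hr hA

end Pool.Agent.Results.MP_255f40_co.ExponentThree
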